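import Pool.Agent.CFS.T.TDefs
import Pool.Agent.CFS.B.BBase

/-!
# Module CFST-Base: the base case, with the blocks scaled by `μ^t`
-/

noncomputable section

namespace CFS

open Finset Classical

private theorem scale_aux {s : ℕ} {L : Fin s → ℕ} {μ d D : ℝ} (hμ : 0 < μ) (hμ1 : μ ≤ 1)
    (hμd : μ * D ≤ d / 100) (u : Fin s) (x y x' y' : (t : Fin s) → (Fin (L t) → ℝ))
    (h0 : ∀ t < u, x' t = y' t) (h1 : dist (x' u) (y' u) ≤ dist (x u) (y u) / 100)
    (hd : d ≤ dist (x u) (y u)) (hD : ∀ t, dist (x' t) (y' t) ≤ D) (t : Fin s) :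
    dist (μ ^ (t : ℕ) • x' t) (μ ^ (t : ℕ) • y' t) ≤
      dist (μ ^ (u : ℕ) • x u) (μ ^ (u : ℕ) • y u) / 100 := by
  rw [dist_smul₀, dist_smul₀, Real.norm_of_nonneg (by positivity), Real.norm_of_nonneg (by positivity)]
  have hu : 0 < μ ^ (u : ℕ) := by positivity
  rcases lt_trichotomy t u with h | h | h
  · rw [h0 t h, dist_self, mul_zero]
    positivity
  · subst h
    rw [mul_div_assoc]
    exact mul_le_mul_of_nonneg_left h1 hu.le
  · have h2 : μ ^ (t : ℕ) ≤ μ ^ ((u : ℕ) + 1) :=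
      pow_le_pow_of_le_one hμ.le hμ1 (Nat.succ_le_of_lt h)
    calc μ ^ (t : ℕ) * dist (x' t) (y' t) ≤ μ ^ ((u : ℕ) + 1) * D :=
          mul_le_mul h2 (hD t) dist_nonneg (by positivity)
      _ = μ ^ (u : ℕ) * (μ * D) := by ring
      _ ≤ μ ^ (u : ℕ) * (d / 100) := mul_le_mul_of_nonneg_left hμd hu.le
      _ ≤ μ ^ (u : ℕ) * (dist (x u) (y u) / 100) :=
          mul_le_mul_of_nonneg_left (div_le_div_of_nonneg_right hd (by norm_num)) hu.le
      _ = μ ^ (u : ℕ) * dist (x u) (y u) / 100 := by ring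

private theorem exists_low {s : ℕ} {L : Fin s → ℕ} {X : Type} (P : Finset X)
    (g : (t : Fin s) → X → W (L t)) : ∃ d : ℝ, 0 < d ∧ ∀ t, ∀ p ∈ P, ∀ q ∈ P,
      g t p ≠ g t q → d ≤ dist (g t p) (g t q) := by
  let S : Finset ℝ := (univ ×ˢ (P ×ˢ P)).image
    (fun x : Fin s × (X × X) => if g x.1 x.2.1 = g x.1 x.2.2 then 1 else dist (g x.1 x.2.1) (g x.1 x.2.2))
  refine ⟨(insert 1 S).min' (insert_nonempty _ _), ?_, ?_⟩
  · refine (Finset.lt_min'_iff _ _).2 ?_
    intro y hy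
    rcases mem_insert.1 hy with rfl | hy
    · exact one_pos
    · obtain ⟨x, _, rfl⟩ := mem_image.1 hy
      show 0 < if g x.1 x.2.1 = g x.1 x.2.2 then (1 : ℝ) else dist (g x.1 x.2.1) (g x.1 x.2.2)
      split_ifs with h
      · exact one_pos
      · exact dist_pos.2 h
  · intro t p hp q hq hne
    refine Finset.min'_le _ _ (mem_insert_of_mem (mem_image.2
      ⟨(t, (p, q)), mem_product.2 ⟨mem_univ _, mem_product.2 ⟨hp, hq⟩⟩, ?_⟩))
    exact if_neg hne

private theorem exists_up {s : ℕ} {L : Fin s → ℕ} {X : Type} (P : Finset X)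
    (g : (t : Fin s) → X → W (L t)) : ∃ D : ℝ, 0 ≤ D ∧ ∀ t, ∀ p ∈ P, ∀ q ∈ P,
      dist (g t p) (g t q) ≤ D := by
  refine ⟨∑ x ∈ (univ ×ˢ (P ×ˢ P) : Finset (Fin s × (X × X))), dist (g x.1 x.2.1) (g x.1 x.2.2),
    Finset.sum_nonneg fun _ _ => dist_nonneg, ?_⟩
  intro t p hp q hq
  exact Finset.single_le_sum (f := fun x : Fin s × (X × X) => dist (g x.1 x.2.1) (g x.1 x.2.2))
    (fun _ _ => dist_nonneg) (show (t, (p, q)) ∈ univ ×ˢ (P ×ˢ P) from
      mem_product.2 ⟨mem_univ t, mem_product.2 ⟨hp, hq⟩⟩)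

private theorem first_diff {s : ℕ} {L : Fin s → ℕ} {X : Type} (pt : X → (t : Fin s) → W (L t))
    {p q : X} (h : ¬ ∀ t, pt p t = pt q t) : ∃ u, pt p u ≠ pt q u ∧ Lo pt u p q := by
  push Not at h
  obtain ⟨t0, ht0⟩ := h
  have hne : (univ.filter fun t => pt p t ≠ pt q t).Nonempty :=
    ⟨t0, mem_filter.2 ⟨mem_univ _, ht0⟩⟩
  refine ⟨(univ.filter fun t => pt p t ≠ pt q t).min' hne,
    (mem_filter.1 (Finset.min'_mem _ hne)).2, ?_⟩
  intro t ht
  by_contra hc
  have h1 := Finset.min'_le _ t (mem_filter.2 ⟨mem_univ t, hc⟩ : t ∈ univ.filter fun t => pt p t ≠ pt q t)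
  exact absurd ht (not_lt.2 h1)

theorem t_base {s : ℕ} (L : Fin s → ℕ) (V : Fin s → Type)
    [∀ t, NormedAddCommGroup (V t)] (M w : ℝ) : GoodE L V M w Finset.univ := by
  obtain ⟨A0, hA0, hcore⟩ := core_mapX (Fintype.card (Σ t, Fin (L t)))
  refine ⟨2 * A0, by linarith, ?_⟩
  intro ι X inc pt a I P Lf Rf ρ hF hsep hρ hL hR
  have hρ0 : 0 < ρ := by linarith
  choose g hg1 hg2 hg3 using fun t => hsep t (Finset.mem_univ t)
  obtain ⟨d, hd0, hd⟩ := exists_low P g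
  obtain ⟨D, hD0, hD⟩ := exists_up P g
  obtain ⟨μ, hμ, hμ1, hμd⟩ : ∃ μ : ℝ, 0 < μ ∧ μ ≤ 1 ∧ μ * D ≤ d / 100 := by
    refine ⟨min 1 (d / (100 * (D + 1))), lt_min one_pos (by positivity), min_le_left _ _, ?_⟩
    have h1 : min 1 (d / (100 * (D + 1))) ≤ d / (100 * (D + 1)) := min_le_right _ _
    have h2 : min 1 (d / (100 * (D + 1))) * D ≤ d / (100 * (D + 1)) * D :=
      mul_le_mul_of_nonneg_right h1 hD0
    refine h2.trans ?_
    rw [div_mul_eq_mul_div, div_le_div_iff₀ (by positivity) (by norm_num)]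
    nlinarith [mul_nonneg hd0.le hD0]
  have hfst : ∀ p ∈ P, ∀ q ∈ P, p ≠ q → ∃ u, g u p ≠ g u q ∧ Lo pt u p q ∧ ∀ t < u, g t p = g t q := by
    intro p hp q hq hpq
    obtain ⟨u, hu1, hu2⟩ := first_diff pt (fun h => hpq (hF.ptinj p hp q hq h))
    refine ⟨u, fun h => hu1 ((hg1 u p hp q hq hu2).1 h), hu2, ?_⟩
    intro t ht
    exact (hg1 t p hp q hq (fun v hv => hu2 v (hv.trans ht))).2 (hu2 t ht)
  set e : (Σ t, Fin (L t)) ≃ Fin (Fintype.card (Σ t, Fin (L t))) := Fintype.equivFin _ with he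
  set flat : ((t : Fin s) → (Fin (L t) → ℝ)) → (Fin (Fintype.card (Σ t, Fin (L t))) → ℝ) :=
    fun x k => x (e.symm k).1 (e.symm k).2 with hflat
  have hfe : ∀ (x : (t : Fin s) → (Fin (L t) → ℝ)) (t : Fin s) (k : Fin (L t)),
      flat x (e ⟨t, k⟩) = x t k := by
    intro x t k
    have h2 : ∀ z : (Σ t, Fin (L t)), z = ⟨t, k⟩ → x z.1 z.2 = x t k := by
      rintro _ rfl
      rfl
    exact h2 _ (e.symm_apply_apply _)
  have hi : ∀ (x y : (t : Fin s) → (Fin (L t) → ℝ)) (t : Fin s),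
      dist (x t) (y t) ≤ dist (flat x) (flat y) := by
    intro x y t
    rw [dist_pi_le_iff dist_nonneg]
    intro k
    rw [← hfe x t k, ← hfe y t k]
    exact dist_le_pi_dist _ _ _
  have hii : ∀ (x y : (t : Fin s) → (Fin (L t) → ℝ)) (c : ℝ), 0 ≤ c → (∀ t, dist (x t) (y t) ≤ c) →
      dist (flat x) (flat y) ≤ c := by
    intro x y c hc h
    rw [dist_pi_le_iff hc]
    intro k
    exact (dist_le_pi_dist (x (e.symm k).1) (y (e.symm k).1) (e.symm k).2).trans (h _)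
  set G : X → W (Fintype.card (Σ t, Fin (L t))) :=
    fun p => (flat (fun t => μ ^ (t : ℕ) • (g t p).1), flat (fun t => μ ^ (t : ℕ) • (g t p).2)) with hG
  have hfinj : ∀ x y : (t : Fin s) → (Fin (L t) → ℝ), flat x = flat y → ∀ t, x t = y t := by
    intro x y h t
    funext k
    rw [← hfe x t k, ← hfe y t k, h]
  have hGinj : ∀ p ∈ P, ∀ q ∈ P, G p = G q → p = q := by
    intro p hp q hq h
    by_contra hpq
    obtain ⟨u, hu, _, _⟩ := hfst p hp q hq hpq
    have h1 := congrArg Prod.fst h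
    have h2 := congrArg Prod.snd h
    have h3 := hfinj (fun t => μ ^ (t : ℕ) • (g t p).1) (fun t => μ ^ (t : ℕ) • (g t q).1) h1 u
    have h4 := hfinj (fun t => μ ^ (t : ℕ) • (g t p).2) (fun t => μ ^ (t : ℕ) • (g t q).2) h2 u
    have hu0 : μ ^ (u : ℕ) ≠ 0 := by positivity
    exact hu (Prod.ext (smul_right_injective _ hu0 h3) (smul_right_injective _ hu0 h4))
  have hHor : ∀ i ∈ I, ∀ p ∈ P, ∀ q ∈ P, (inc p i ∧ Lf i) → (inc q i ∧ Lf i) → Hor (G p) (G q) := by
    intro i hi' p hp q hq h1 h2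
    by_cases hpq : p = q
    · subst hpq
      unfold Hor
      simp
    obtain ⟨u, hu, hlo, hlt⟩ := hfst p hp q hq hpq
    have h3 : Hor (g u p) (g u q) := hg2 u i hi' h1.2 p hp q hq hlo h1.1 h2.1
    unfold Hor at h3 ⊢
    have h4 : d ≤ dist (g u p).1 (g u q).1 := by
      have h5 := hd u p hp q hq hu
      rw [Prod.dist_eq] at h5
      rcases le_max_iff.1 h5 with h6 | h6
      · exact h6
      · linarith [dist_nonneg (x := (g u p).1) (y := (g u q).1)]
    have h5 := hi (fun t => μ ^ (t : ℕ) • (g t p).1) (fun t => μ ^ (t : ℕ) • (g t q).1) u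
    refine hii (fun t => μ ^ (t : ℕ) • (g t p).2) (fun t => μ ^ (t : ℕ) • (g t q).2) _
      (by positivity) ?_
    intro t
    refine (scale_aux hμ hμ1 hμd u (fun t => (g t p).1) (fun t => (g t q).1)
      (fun t => (g t p).2) (fun t => (g t q).2) (fun t ht => by rw [hlt t ht]) h3 h4
      (fun t => ?_) t).trans (div_le_div_of_nonneg_right h5 (by norm_num))
    refine le_trans ?_ (hD t p hp q hq)
    rw [Prod.dist_eq]
    exact le_max_right _ _
  have hVer : ∀ i ∈ I, ∀ p ∈ P, ∀ q ∈ P, (inc p i ∧ Rf i) → (inc q i ∧ Rf i) → Ver (G p) (G q) := by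
    intro i hi' p hp q hq h1 h2
    by_cases hpq : p = q
    · subst hpq
      unfold Ver
      simp
    obtain ⟨u, hu, hlo, hlt⟩ := hfst p hp q hq hpq
    have h3 : Ver (g u p) (g u q) := hg3 u i hi' h1.2 p hp q hq hlo h1.1 h2.1
    unfold Ver at h3 ⊢
    have h4 : d ≤ dist (g u p).2 (g u q).2 := by
      have h5 := hd u p hp q hq hu
      rw [Prod.dist_eq] at h5
      rcases le_max_iff.1 h5 with h6 | h6
      · linarith [dist_nonneg (x := (g u p).2) (y := (g u q).2)]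
      · exact h6
    have h5 := hi (fun t => μ ^ (t : ℕ) • (g t p).2) (fun t => μ ^ (t : ℕ) • (g t q).2) u
    refine hii (fun t => μ ^ (t : ℕ) • (g t p).1) (fun t => μ ^ (t : ℕ) • (g t q).1) _
      (by positivity) ?_
    intro t
    refine (scale_aux hμ hμ1 hμd u (fun t => (g t p).2) (fun t => (g t q).2)
      (fun t => (g t p).1) (fun t => (g t q).1) (fun t ht => by rw [hlt t ht]) h3 h4
      (fun t => ?_) t).trans (div_le_div_of_nonneg_right h5 (by norm_num))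
    refine le_trans ?_ (hD t p hp q hq)
    rw [Prod.dist_eq]
    exact le_max_left _ _
  have hn0 : (0 : ℝ) ≤ (I.card : ℝ) := Nat.cast_nonneg _
  have hsq0 : (0 : ℝ) ≤ (I.card : ℝ) ^ 2 / ρ ^ 3 := by positivity
  have hli0 : (0 : ℝ) ≤ (I.card : ℝ) / ρ := by positivity
  have hfe : ∀ (Q : ι → Prop) (d1 d2 : DecidablePred Q),
      @Finset.filter ι Q d1 I = @Finset.filter ι Q d2 I := by
    intro Q d1 d2
    rw [Subsingleton.elim d1 d2]
  by_cases hAρ : A0 ≤ ρ
  · have hL' : ∀ p ∈ P, ρ ≤ ((@Finset.filter ι (fun i => inc p i ∧ Lf i)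
        (fun _ => Classical.propDecidable _) I).card : ℝ) := by
      intro p hp
      have h := hL p hp
      rw [hfe _ _ (fun _ => Classical.propDecidable _)] at h
      exact h
    have hR' : ∀ p ∈ P, ρ ≤ ((@Finset.filter ι (fun i => inc p i ∧ Rf i)
        (fun _ => Classical.propDecidable _) I).card : ℝ) := by
      intro p hp
      have h := hR p hp
      rw [hfe _ _ (fun _ => Classical.propDecidable _)] at h
      exact h
    have h1 := hcore I P G (fun p i => inc p i ∧ Lf i) (fun p i => inc p i ∧ Rf i) ρ hGinj hHor hVer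
      (fun p hp q hq hpq i hi' i' hi'' h1 h2 h3 h4 =>
        hF.one p hp q hq hpq i hi' i' hi'' h1.1 h2.1 h3.1 h4.1)
      (fun p hp q hq hpq i hi' i' hi'' h1 h2 h3 h4 =>
        hF.one p hp q hq hpq i hi' i' hi'' h1.1 h2.1 h3.1 h4.1) hAρ hL' hR'
    refine h1.trans ?_
    apply mul_le_mul_of_nonneg_right _ (by linarith)
    linarith
  · push Not at hAρ
    have h1 := triv2 I P (fun p => I.filter (fun i => inc p i ∧ Lf i))
      (fun p _ => Finset.filter_subset _ _) (by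
        intro p hp q hq hpq
        rw [Finset.card_le_one]
        intro i hi' i' hi''
        rw [Finset.mem_inter, Finset.mem_filter, Finset.mem_filter] at hi' hi''
        exact hF.one p hp q hq hpq i hi'.1.1 i' hi''.1.1 hi'.1.2.1 hi'.2.2.1 hi''.1.2.1 hi''.2.2.1)
      ρ hρ hL
    have h2 : (P.card : ℝ) ≤ 2 * A0 * ((I.card : ℝ) ^ 2 / ρ ^ 3) := by
      rw [← mul_div_assoc, le_div_iff₀ (by positivity)]
      calc (P.card : ℝ) * ρ ^ 3 = (P.card : ℝ) * ρ ^ 2 * ρ := by ring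
        _ ≤ 2 * (I.card : ℝ) ^ 2 * ρ := mul_le_mul_of_nonneg_right h1 hρ0.le
        _ ≤ 2 * (I.card : ℝ) ^ 2 * A0 := mul_le_mul_of_nonneg_left hAρ.le (by positivity)
        _ = 2 * A0 * (I.card : ℝ) ^ 2 := by ring
    have h3 : 0 ≤ 2 * A0 * ((I.card : ℝ) / ρ) := by
      apply mul_nonneg _ hli0
      linarith
    linarith

end CFS
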