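import Pool.Agent.CFS.Defs

/-!
# Project CFS, part T (triangular families): definitions

The blocks are `t : Fin s`, ordered.  `Lo pt t p q`: the points `p q` have the same coordinates in all the
blocks before `t`.  All separation conditions in the block `t` are only required for pairs of points
which agree in the previous blocks (the coordinates of the block `t` are scaled by `μ^t`, `μ` tiny).
-/

noncomputable section

namespace CFS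

open Finset Classical

/-- `p` and `q` agree in the blocks before `t` -/
def Lo {s : ℕ} {L : Fin s → ℕ} {X : Type} (pt : X → (t : Fin s) → W (L t)) (t : Fin s)
    (p q : X) : Prop := ∀ u : Fin s, u < t → pt p u = pt q u

/-- separation in one block, for the pairs of points related by `Er` -/
def SepE {l : ℕ} {ι X : Type} (Er : X → X → Prop) (inc : X → ι → Prop) (pt : X → W l)
    (I : Finset ι) (Lf Rf : ι → Prop) (P : Finset X) : Prop :=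
  ∃ g : X → W l, (∀ p ∈ P, ∀ q ∈ P, Er p q → (g p = g q ↔ pt p = pt q)) ∧
    (∀ i ∈ I, Lf i → ∀ p ∈ P, ∀ q ∈ P, Er p q → inc p i → inc q i → Hor (g p) (g q)) ∧
    (∀ i ∈ I, Rf i → ∀ p ∈ P, ∀ q ∈ P, Er p q → inc p i → inc q i → Ver (g p) (g q))

structure FamE {s : ℕ} (L : Fin s → ℕ) (V : Fin s → Type) [∀ t, NormedAddCommGroup (V t)]
    (M w : ℝ) {ι X : Type} (inc : X → ι → Prop) (pt : X → (t : Fin s) → W (L t))
    (a : (t : Fin s) → ι → V t) (I : Finset ι) (P : Finset X) : Prop where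
  ptinj : ∀ p ∈ P, ∀ q ∈ P, (∀ t, pt p t = pt q t) → p = q
  one : ∀ p ∈ P, ∀ q ∈ P, p ≠ q → ∀ i ∈ I, ∀ j ∈ I, inc p i → inc q i → inc p j → inc q j → i = j
  ne : ∀ t, ∀ p ∈ P, ∀ i ∈ I, ∀ j ∈ I, i ≠ j → inc p i → inc p j → a t i ≠ a t j
  nf : ∀ t, ∀ i0 ∈ I, ∀ R : ℝ, 0 < R → ∀ P' : Finset X, P' ⊆ P →
    (∀ p ∈ P', ∃ i ∈ I, inc p i ∧ ‖a t i - a t i0‖ ≤ R) →
    SepE (Lo pt t) inc (fun p => pt p t) I (fun i => ‖a t i - a t i0‖ ≤ R)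
      (fun i => w * R < ‖a t i - a t i0‖) P' ∧
    SepE (Lo pt t) inc (fun p => pt p t) I (fun i => w * R < ‖a t i - a t i0‖)
      (fun i => ‖a t i - a t i0‖ ≤ R) P'
  nn : ∀ t, ∀ Q1 Q2 : ι → Prop, ∀ δ : ℝ, 0 < δ →
    (∀ i ∈ I, ∀ j ∈ I, Q1 i → Q1 j → ‖a t i - a t j‖ ≤ δ) →
    (∀ i ∈ I, ∀ j ∈ I, Q2 i → Q2 j → ‖a t i - a t j‖ ≤ δ) →
    (∀ i ∈ I, ∀ j ∈ I, Q1 i → Q2 j → M * δ ≤ ‖a t i - a t j‖) →
    (∃ p ∈ P, ∃ i ∈ I, ∃ j ∈ I, inc p i ∧ inc p j ∧ Q1 i ∧ Q2 j) →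
    SepE (Lo pt t) inc (fun p => pt p t) I Q1 Q2 P

def GoodE {s : ℕ} (L : Fin s → ℕ) (V : Fin s → Type) [∀ t, NormedAddCommGroup (V t)]
    (M w : ℝ) (B : Finset (Fin s)) : Prop :=
  ∃ A : ℝ, 1 ≤ A ∧ ∀ {ι X : Type} (inc : X → ι → Prop) (pt : X → (t : Fin s) → W (L t))
    (a : (t : Fin s) → ι → V t) (I : Finset ι) (P : Finset X) (Lf Rf : ι → Prop) (ρ : ℝ),
    FamE L V M w inc pt a I P →
    (∀ t ∈ B, SepE (Lo pt t) inc (fun p => pt p t) I Lf Rf P) → 2 ≤ ρ →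
    (∀ p ∈ P, ρ ≤ ((I.filter (fun i => inc p i ∧ Lf i)).card : ℝ)) →
    (∀ p ∈ P, ρ ≤ ((I.filter (fun i => inc p i ∧ Rf i)).card : ℝ)) →
    (P.card : ℝ) ≤ A * ((I.card : ℝ) ^ 2 / ρ ^ 3 + I.card / ρ)

end CFS
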