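import Pool.Agent.CFS.T.TQThm

/-!
# Module CFST-Main: triangular quasi-linear families in finite-dimensional normed spaces

Transport of `tq_thm` by linear isomorphisms of the blocks with the spaces `Fin l → ℝ`.
-/

noncomputable section

namespace CFS

open Finset Classical

private theorem tm_norm {Y : Type} [NormedAddCommGroup Y] [NormedSpace ℝ Y] {l : ℕ}
    (e : Y ≃L[ℝ] E l) {c : ℝ} (hc : 1 ≤ c) (he : ∀ x, ‖e x‖ ≤ c * ‖x‖)
    (hs : ∀ y, ‖e.symm y‖ ≤ c * ‖y‖) (D : Y →L[ℝ] Y) (D' : E l →L[ℝ] E l)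
    (hD : ∀ y, D' y = e (D (e.symm y))) : ‖D‖ ≤ c ^ 2 * ‖D'‖ := by
  have hc0 : 0 ≤ c := by linarith
  refine ContinuousLinearMap.opNorm_le_bound _ (by positivity) fun x => ?_
  have h1 : D x = e.symm (D' (e x)) := by
    rw [hD, e.symm_apply_apply, e.symm_apply_apply]
  rw [h1]
  calc ‖e.symm (D' (e x))‖ ≤ c * ‖D' (e x)‖ := hs _
    _ ≤ c * (‖D'‖ * ‖e x‖) := mul_le_mul_of_nonneg_left (D'.le_opNorm _) hc0
    _ ≤ c * (‖D'‖ * (c * ‖x‖)) :=
        mul_le_mul_of_nonneg_left (mul_le_mul_of_nonneg_left (he x) (norm_nonneg _)) hc0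
    _ = c ^ 2 * ‖D'‖ * ‖x‖ := by ring

private theorem tm_conf {Y : Type} [NormedAddCommGroup Y] [NormedSpace ℝ Y] {l : ℕ}
    (e : Y ≃L[ℝ] E l) {c K : ℝ} (hc : 1 ≤ c) (he : ∀ x, ‖e x‖ ≤ c * ‖x‖)
    (hs : ∀ y, ‖e.symm y‖ ≤ c * ‖y‖) (D : Y →L[ℝ] Y) (D' : E l →L[ℝ] E l)
    (hD : ∀ y, D' y = e (D (e.symm y)))
    (hK : ∀ u w : Y, ‖D u‖ * ‖w‖ ≤ K * (‖D w‖ * ‖u‖)) : KConf (max K 1 * c ^ 4) D' := by
  intro u' w'
  have hc0 : 0 ≤ c := by linarith
  have hM : 0 ≤ max K 1 := le_trans zero_le_one (le_max_right _ _)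
  rw [hD, hD]
  have h3 : ‖w'‖ ≤ c * ‖e.symm w'‖ := by
    have := he (e.symm w')
    rwa [e.apply_symm_apply] at this
  have h4 : ‖D (e.symm w')‖ ≤ c * ‖e (D (e.symm w'))‖ := by
    have := hs (e (D (e.symm w')))
    rwa [e.symm_apply_apply] at this
  have h6 : ‖D (e.symm u')‖ * ‖e.symm w'‖ ≤ max K 1 * (‖D (e.symm w')‖ * ‖e.symm u'‖) :=
    (hK _ _).trans (mul_le_mul_of_nonneg_right (le_max_left _ _)
      (mul_nonneg (norm_nonneg _) (norm_nonneg _)))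
  calc ‖e (D (e.symm u'))‖ * ‖w'‖
      ≤ (c * ‖D (e.symm u')‖) * (c * ‖e.symm w'‖) :=
        mul_le_mul (he _) h3 (norm_nonneg _) (mul_nonneg hc0 (norm_nonneg _))
    _ = c ^ 2 * (‖D (e.symm u')‖ * ‖e.symm w'‖) := by ring
    _ ≤ c ^ 2 * (max K 1 * (‖D (e.symm w')‖ * ‖e.symm u'‖)) :=
        mul_le_mul_of_nonneg_left h6 (sq_nonneg c)
    _ ≤ c ^ 2 * (max K 1 * ((c * ‖e (D (e.symm w'))‖) * (c * ‖u'‖))) := by
        refine mul_le_mul_of_nonneg_left (mul_le_mul_of_nonneg_left ?_ hM) (sq_nonneg c)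
        exact mul_le_mul h4 (hs _) (norm_nonneg _) (mul_nonneg hc0 (norm_nonneg _))
    _ = max K 1 * c ^ 4 * (‖e (D (e.symm w'))‖ * ‖u'‖) := by ring

private theorem tm_qlin {Y : Type} [NormedAddCommGroup Y] [NormedSpace ℝ Y] {l : ℕ}
    (e : Y ≃L[ℝ] E l) {c ε ε' : ℝ} (hc : 1 ≤ c) (he : ∀ x, ‖e x‖ ≤ c * ‖x‖)
    (hs : ∀ y, ‖e.symm y‖ ≤ c * ‖y‖) (hε : 0 ≤ ε) (hεε : ε * c ^ 4 = ε')
    (D : Y →L[ℝ] Y) (D' : E l →L[ℝ] E l)
    (hD : ∀ y, D' y = e (D (e.symm y))) (v x y : Y) (hv : ‖v‖ ≤ ε * (‖D‖ * ‖x - y‖)) :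
    ‖e v‖ ≤ ε' * (‖D'‖ * ‖e x - e y‖) := by
  have hc0 : 0 ≤ c := by linarith
  have h1 := tm_norm e hc he hs D D' hD
  have h2 : ‖x - y‖ ≤ c * ‖e x - e y‖ := by
    have := hs (e (x - y))
    rw [e.symm_apply_apply, map_sub] at this
    exact this
  calc ‖e v‖ ≤ c * ‖v‖ := he v
    _ ≤ c * (ε * (‖D‖ * ‖x - y‖)) := mul_le_mul_of_nonneg_left hv hc0
    _ ≤ c * (ε * ((c ^ 2 * ‖D'‖) * (c * ‖e x - e y‖))) := by
        refine mul_le_mul_of_nonneg_left (mul_le_mul_of_nonneg_left ?_ hε) hc0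
        exact mul_le_mul h1 h2 (norm_nonneg _) (by positivity)
    _ = (ε * c ^ 4) * (‖D'‖ * ‖e x - e y‖) := by ring
    _ = ε' * (‖D'‖ * ‖e x - e y‖) := by rw [hεε]

theorem t_main (s : ℕ) (X : Fin s → Type) [∀ t, NormedAddCommGroup (X t)]
    [∀ t, NormedSpace ℝ (X t)] [∀ t, FiniteDimensional ℝ (X t)] (K : ℝ) :
    ∃ ε : ℝ, 0 < ε ∧ ∃ A : ℝ, ∀ {ι : Type} (I : Finset ι)
      (P : Finset (((t : Fin s) → X t) × ((t : Fin s) → X t)))
      (B : ι → (t : Fin s) → (X t →L[ℝ] X t))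
      (h : ι → (t : Fin s) → (((t : Fin s) → X t) × ((t : Fin s) → X t)) → X t),
      (∀ i ∈ I, ∀ t, ∀ p ∈ P, ∀ q ∈ P, (∀ u < t, p.1 u = q.1 u ∧ p.2 u = q.2 u) →
        p.1 t = q.1 t → h i t p = h i t q) →
      (∀ i ∈ I, ∀ j ∈ I, ∀ t, ∀ p ∈ P, ∀ q ∈ P, (∀ u < t, p.1 u = q.1 u ∧ p.2 u = q.2 u) →
        ‖(h i t p - h j t p) - (h i t q - h j t q)‖ ≤
          ε * (‖B i t - B j t‖ * ‖p.1 t - q.1 t‖)) →
      (∀ i ∈ I, ∀ j ∈ I, i ≠ j → ∀ p ∈ P, (∀ t, p.2 t = B i t (p.1 t) + h i t p) →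
        (∀ t, p.2 t = B j t (p.1 t) + h j t p) →
        ∀ t, B i t ≠ B j t ∧ ∀ u w : X t,
          ‖(B i t - B j t) u‖ * ‖w‖ ≤ K * (‖(B i t - B j t) w‖ * ‖u‖)) →
      ((∑ p ∈ P, (I.filter (fun i => ∀ t, p.2 t = B i t (p.1 t) + h i t p)).card : ℕ) : ℝ) ≤
        A * ((P.card : ℝ) ^ (2 / 3 : ℝ) * (I.card : ℝ) ^ (2 / 3 : ℝ) + P.card + I.card) := by
  have hne : ∀ t, Nonempty (X t ≃L[ℝ] E (Module.finrank ℝ (X t))) := fun t =>
    ⟨ContinuousLinearEquiv.ofFinrankEq (by simp)⟩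
  obtain ⟨e, -⟩ : ∃ _ : (t : Fin s) → (X t ≃L[ℝ] E (Module.finrank ℝ (X t))), True :=
    ⟨fun t => (hne t).some, trivial⟩
  obtain ⟨c, hcdef⟩ : ∃ c : ℝ, c = 1 + ∑ t, (‖(e t : X t →L[ℝ] E (Module.finrank ℝ (X t)))‖ +
    ‖((e t).symm : E (Module.finrank ℝ (X t)) →L[ℝ] X t)‖) := ⟨_, rfl⟩
  have hle : ∀ t, ‖(e t : X t →L[ℝ] E (Module.finrank ℝ (X t)))‖ +
      ‖((e t).symm : E (Module.finrank ℝ (X t)) →L[ℝ] X t)‖ ≤
      ∑ t, (‖(e t : X t →L[ℝ] E (Module.finrank ℝ (X t)))‖ +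
    ‖((e t).symm : E (Module.finrank ℝ (X t)) →L[ℝ] X t)‖) := fun t =>
    Finset.single_le_sum (f := fun t => ‖(e t : X t →L[ℝ] E (Module.finrank ℝ (X t)))‖ +
      ‖((e t).symm : E (Module.finrank ℝ (X t)) →L[ℝ] X t)‖)
      (fun _ _ => add_nonneg (norm_nonneg _) (norm_nonneg _)) (Finset.mem_univ t)
  have hc1 : 1 ≤ c := by
    rw [hcdef]
    have : 0 ≤ ∑ t, (‖(e t : X t →L[ℝ] E (Module.finrank ℝ (X t)))‖ +
      ‖((e t).symm : E (Module.finrank ℝ (X t)) →L[ℝ] X t)‖) :=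
      Finset.sum_nonneg fun _ _ => add_nonneg (norm_nonneg _) (norm_nonneg _)
    linarith
  have hec : ∀ t, ∀ x, ‖e t x‖ ≤ c * ‖x‖ := by
    intro t x
    refine ((e t : X t →L[ℝ] E (Module.finrank ℝ (X t))).le_opNorm x).trans
      (mul_le_mul_of_nonneg_right ?_ (norm_nonneg _))
    have h1 := hle t
    have h2 := norm_nonneg ((e t).symm : E (Module.finrank ℝ (X t)) →L[ℝ] X t)
    rw [hcdef]
    linarith
  have hsc : ∀ t, ∀ y, ‖(e t).symm y‖ ≤ c * ‖y‖ := by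
    intro t y
    refine (((e t).symm : E (Module.finrank ℝ (X t)) →L[ℝ] X t).le_opNorm y).trans
      (mul_le_mul_of_nonneg_right ?_ (norm_nonneg _))
    have h1 := hle t
    have h2 := norm_nonneg (e t : X t →L[ℝ] E (Module.finrank ℝ (X t)))
    rw [hcdef]
    linarith
  obtain ⟨K', hK'⟩ : ∃ K' : ℝ, K' = max K 1 * c ^ 4 := ⟨_, rfl⟩
  have hK1 : 1 ≤ K' := by
    rw [hK']
    exact one_le_mul_of_one_le_of_one_le (le_max_right _ _) (one_le_pow₀ hc1)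
  obtain ⟨ε', hε'⟩ : ∃ ε' : ℝ, ε' = 1 / (400 * K' ^ 2) := ⟨_, rfl⟩
  have hK0 : 0 < K' := by linarith
  have hε0 : 0 < ε' := by rw [hε']; positivity
  have hc0 : 0 < c := by linarith
  obtain ⟨A, hA0, hA⟩ := tq_thm (fun t => Module.finrank ℝ (X t)) K' ε' hK1 hε0.le (by
    rw [hε', mul_one_div_cancel (by positivity)])
  refine ⟨ε' / c ^ 4, by positivity, A, ?_⟩
  intro ι I P B h hcg hq hconf
  have hεε : ε' / c ^ 4 * c ^ 4 = ε' := div_mul_cancel₀ _ (by positivity)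
  have hLo : ∀ (t : Fin s) (p q : ((t : Fin s) → X t) × ((t : Fin s) → X t)),
      Lo (L := fun t => Module.finrank ℝ (X t))
        (fun (p : ((t : Fin s) → X t) × ((t : Fin s) → X t)) t => (e t (p.1 t), e t (p.2 t))) t p q →
      ∀ u < t, p.1 u = q.1 u ∧ p.2 u = q.2 u := by
    intro t p q h u hu
    exact ⟨(e u).injective (congrArg Prod.fst (h u hu)), (e u).injective (congrArg Prod.snd (h u hu))⟩
  have key := hA (ι := ι) (X := ((t : Fin s) → X t) × ((t : Fin s) → X t))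
    (fun p i => ∀ t, p.2 t = B i t (p.1 t) + h i t p)
    (fun p t => (e t (p.1 t), e t (p.2 t)))
    (fun i t => (e t : X t →L[ℝ] E (Module.finrank ℝ (X t))) ∘L B i t ∘L
      ((e t).symm : E (Module.finrank ℝ (X t)) →L[ℝ] X t))
    (fun i t p => e t (h i t p)) I P (by
      intro p _ q _ hpq
      refine Prod.ext (funext fun t => ?_) (funext fun t => ?_)
      · exact (e t).injective (congrArg Prod.fst (hpq t))
      · exact (e t).injective (congrArg Prod.snd (hpq t))) (by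
      intro t
      have hD : ∀ i j, ∀ y, (((e t : X t →L[ℝ] E (Module.finrank ℝ (X t))) ∘L B i t ∘L
          ((e t).symm : E (Module.finrank ℝ (X t)) →L[ℝ] X t)) -
          ((e t : X t →L[ℝ] E (Module.finrank ℝ (X t))) ∘L B j t ∘L
          ((e t).symm : E (Module.finrank ℝ (X t)) →L[ℝ] X t))) y =
          e t ((B i t - B j t) ((e t).symm y)) := by
        intro i j y
        change e t (B i t ((e t).symm y)) - e t (B j t ((e t).symm y)) =
          e t (B i t ((e t).symm y) - B j t ((e t).symm y))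
        rw [map_sub]
      refine ⟨hK1, hε0.le, ?_, ?_, ?_, ?_, ?_⟩
      · rw [hε', mul_one_div_cancel (by positivity)]
      · intro p _ i _ hi
        change e t (p.2 t) = e t (B i t ((e t).symm (e t (p.1 t)))) + e t (h i t p)
        rw [(e t).symm_apply_apply, ← map_add, ← hi t]
      · intro i hi p hp q hq' hpq h1
        have h2 : p.1 t = q.1 t := (e t).injective h1
        exact congrArg (e t) (hcg i hi t p hp q hq' (hLo t p q hpq) h2)
      · intro i hi j hj p hp q hq' hpq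
        rw [← map_sub, ← map_sub, ← map_sub]
        exact tm_qlin (e t) hc1 (hec t) (hsc t) (by positivity) hεε (B i t - B j t) _
          (hD i j) _ (p.1 t) (q.1 t) (hq i hi j hj t p hp q hq' (hLo t p q hpq))
      · intro p hp i hi j hj hij h1 h2
        obtain ⟨h3, h4⟩ := hconf i hi j hj hij p hp h1 h2 t
        refine ⟨fun hE => h3 ?_, ?_⟩
        · refine ContinuousLinearMap.ext fun x => ?_
          have h5 := hD i j (e t x)
          rw [show ((e t : X t →L[ℝ] E (Module.finrank ℝ (X t))) ∘L B i t ∘L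
            ((e t).symm : E (Module.finrank ℝ (X t)) →L[ℝ] X t)) =
            ((e t : X t →L[ℝ] E (Module.finrank ℝ (X t))) ∘L B j t ∘L
            ((e t).symm : E (Module.finrank ℝ (X t)) →L[ℝ] X t)) from hE, sub_self,
            (e t).symm_apply_apply] at h5
          have h6 : e t ((B i t - B j t) x) = 0 := h5.symm
          rw [map_eq_zero_iff _ (e t).injective] at h6
          exact sub_eq_zero.1 h6
        · rw [hK']
          exact tm_conf (e t) hc1 (hec t) (hsc t) (B i t - B j t) _ (hD i j) h4)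
  refine le_trans (le_of_eq ?_) key
  refine congrArg _ (Finset.sum_congr rfl fun p _ => ?_)
  refine congrArg _ ?_
  ext i
  simp only [Finset.mem_filter]

end CFS
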