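import Pool.Agent.CFS.T.TDefs

/-!
# Module CFST-Mono: monotonicity of `SepE` and `FamE` (adapt the complete proof of `CFS/B/BMono.lean`)
-/

noncomputable section

namespace CFS

open Finset Classical

theorem sepE_mono {l : ℕ} {ι X : Type} {Er : X → X → Prop} {inc : X → ι → Prop} {pt : X → W l}
    {I I' : Finset ι} {Lf Rf Lf' Rf' : ι → Prop} {P P' : Finset X}
    (h : SepE Er inc pt I Lf Rf P) (hI : I' ⊆ I)
    (hP : P' ⊆ P) (hL : ∀ i ∈ I', Lf' i → Lf i) (hR : ∀ i ∈ I', Rf' i → Rf i) :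
    SepE Er inc pt I' Lf' Rf' P' := by
  obtain ⟨g, hg, h1, h2⟩ := h
  refine ⟨g, ?_, ?_, ?_⟩
  · intro p hp q hq
    exact hg p (hP hp) q (hP hq)
  · intro i hi hl p hp q hq
    exact h1 i (hI hi) (hL i hi hl) p (hP hp) q (hP hq)
  · intro i hi hr p hp q hq
    exact h2 i (hI hi) (hR i hi hr) p (hP hp) q (hP hq)

theorem famE_mono {s : ℕ} {L : Fin s → ℕ} {V : Fin s → Type} [∀ t, NormedAddCommGroup (V t)]
    {M w : ℝ} {ι X : Type} {inc : X → ι → Prop} {pt : X → (t : Fin s) → W (L t)}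
    {a : (t : Fin s) → ι → V t} {I I' : Finset ι} {P P' : Finset X}
    (h : FamE L V M w inc pt a I P) (hI : I' ⊆ I) (hP : P' ⊆ P) :
    FamE L V M w inc pt a I' P' := by
  refine ⟨?_, ?_, ?_, ?_, ?_⟩
  · intro p hp q hq
    exact h.ptinj p (hP hp) q (hP hq)
  · intro p hp q hq hne i hi j hj
    exact h.one p (hP hp) q (hP hq) hne i (hI hi) j (hI hj)
  · intro t p hp i hi j hj
    exact h.ne t p (hP hp) i (hI hi) j (hI hj)
  · intro t i0 hi0 R hR P'' hP'' hw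
    obtain ⟨h1, h2⟩ := h.nf t i0 (hI hi0) R hR P'' (hP''.trans hP) (by
      intro p hp
      obtain ⟨i, hi, h3⟩ := hw p hp
      exact ⟨i, hI hi, h3⟩)
    exact ⟨sepE_mono h1 hI subset_rfl (fun i _ h => h) (fun i _ h => h),
      sepE_mono h2 hI subset_rfl (fun i _ h => h) (fun i _ h => h)⟩
  · intro t Q1 Q2 δ hδ h1 h2 h3 h4
    have h5 := h.nn t (fun i => Q1 i ∧ i ∈ I') (fun i => Q2 i ∧ i ∈ I') δ hδ
      (fun i _ j _ hi hj => h1 i hi.2 j hj.2 hi.1 hj.1)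
      (fun i _ j _ hi hj => h2 i hi.2 j hj.2 hi.1 hj.1)
      (fun i _ j _ hi hj => h3 i hi.2 j hj.2 hi.1 hj.1) (by
        obtain ⟨p, hp, i, hi, j, hj, h6, h7, h8, h9⟩ := h4
        exact ⟨p, hP hp, i, hI hi, j, hI hj, h6, h7, ⟨h8, hi⟩, ⟨h9, hj⟩⟩)
    exact sepE_mono h5 hI hP (fun i hi h => ⟨h, hi⟩) (fun i hi h => ⟨h, hi⟩)

end CFS
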