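import Pool.Agent.CFS.T.TDefs
import Pool.Agent.CFS.ConfL

/-!
# Module CFST-One: one block, quasi-linear families, pairs of points related by `Er`
-/

noncomputable section

namespace CFS

open Finset Classical

private theorem q_eps {K ε : ℝ} (hK : 1 ≤ K) (hε : 0 ≤ ε) (h : 400 * K ^ 2 * ε ≤ 1) :
    400 * (K * ε) ≤ 1 ∧ 400 * ε ≤ 1 := by
  have h1 : ε ≤ K * ε := by nlinarith
  have h2 : K * ε ≤ K ^ 2 * ε := by nlinarith [mul_nonneg hε (by linarith : (0 : ℝ) ≤ K)]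
  constructor <;> nlinarith

structure QuasiE {l : ℕ} (K ε : ℝ) {ι X : Type} (Er : X → X → Prop) (inc : X → ι → Prop)
    (pt : X → W l) (B : ι → E l →L[ℝ] E l) (h : ι → X → E l) (I : Finset ι)
    (P : Finset X) : Prop where
  hK : 1 ≤ K
  hε : 0 ≤ ε
  hKε : 400 * K ^ 2 * ε ≤ 1
  hinc : ∀ p ∈ P, ∀ i ∈ I, inc p i → (pt p).2 = B i (pt p).1 + h i p
  hcong : ∀ i ∈ I, ∀ p ∈ P, ∀ q ∈ P, Er p q → (pt p).1 = (pt q).1 → h i p = h i q
  qlin : ∀ i ∈ I, ∀ j ∈ I, ∀ p ∈ P, ∀ q ∈ P, Er p q →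
    ‖(h i p - h j p) - (h i q - h j q)‖ ≤ ε * (‖B i - B j‖ * ‖(pt p).1 - (pt q).1‖)
  conf : ∀ p ∈ P, ∀ i ∈ I, ∀ j ∈ I, i ≠ j → inc p i → inc p j →
    B i ≠ B j ∧ KConf K (B i - B j)

/-- the coordinate `y - B j x - h j p` -/
private def cb {l : ℕ} (A : E l →L[ℝ] E l) (f : E l) (z : W l) : E l := z.2 - A z.1 - f

private theorem q_diff {l : ℕ} {K ε : ℝ} {ι X : Type} {Er : X → X → Prop} {inc : X → ι → Prop}
    {pt : X → W l} {B : ι → E l →L[ℝ] E l} {h : ι → X → E l} {I : Finset ι} {P : Finset X}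
    (H : QuasiE K ε Er inc pt B h I P) {p q : X} (hp : p ∈ P) (hq : q ∈ P) (hpq : Er p q)
    {i j : ι} (hi : i ∈ I) (hj : j ∈ I) (h1 : inc p i) (h2 : inc q i) :
    ∃ e : E l, ‖e‖ ≤ ε * (‖B i - B j‖ * ‖(pt p).1 - (pt q).1‖) ∧
      cb (B j) (h j p) (pt p) - cb (B j) (h j q) (pt q) =
        (B i - B j) ((pt p).1 - (pt q).1) + e := by
  refine ⟨_, H.qlin i hi j hj p hp q hq hpq, ?_⟩
  unfold cb
  rw [H.hinc p hp i hi h1, H.hinc q hq i hi h2, _root_.sub_apply, map_sub, map_sub]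
  abel

/-- the points are determined by `x` and `y - B j x - h j p` -/
private theorem q_iff {l : ℕ} {K ε : ℝ} {ι X : Type} {Er : X → X → Prop} {inc : X → ι → Prop}
    {pt : X → W l} {B : ι → E l →L[ℝ] E l} {h : ι → X → E l} {I : Finset ι} {P : Finset X}
    (H : QuasiE K ε Er inc pt B h I P) {p q : X} (hp : p ∈ P) (hq : q ∈ P) (hpq : Er p q)
    {j : ι} (hj : j ∈ I) :
    ((pt p).1 = (pt q).1 ∧ cb (B j) (h j p) (pt p) = cb (B j) (h j q) (pt q)) ↔ pt p = pt q := by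
  constructor
  · rintro ⟨h1, h2⟩
    have h3 := H.hcong j hj p hp q hq hpq h1
    unfold cb at h2
    rw [h3, h1] at h2
    exact Prod.ext h1 (sub_left_injective (sub_left_injective h2))
  · intro h1
    have h3 := H.hcong j hj p hp q hq hpq (by rw [h1])
    rw [h1, h3]
    exact ⟨rfl, rfl⟩

private theorem q_low {l : ℕ} {K ε R : ℝ} (hK : 1 ≤ K) (hε : 0 ≤ ε) (hKε : 400 * (K * ε) ≤ 1)
    (hR : 0 < R) {A A' A0 : E l →L[ℝ] E l} (hc : KConf K (A - A'))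
    (h3 : 40004 * K * R < ‖A - A0‖) (h4 : ‖A' - A0‖ ≤ R) (w e : E l)
    (he : ‖e‖ ≤ ε * (‖A - A0‖ * ‖w‖)) : 20000 * R * ‖w‖ ≤ ‖(A - A0) w + e‖ := by
  have hKR : R ≤ K * R := by nlinarith
  have h5 : ‖A - A0‖ ≤ ‖A - A'‖ + ‖A' - A0‖ := by
    have h6 : A - A0 = (A - A') + (A' - A0) := by abel
    rw [h6]
    exact norm_add_le _ _
  have h7 := kconf_norm (by linarith) hc w
  have hw := norm_nonneg w
  have h9 : ‖(A - A') w‖ ≤ ‖(A - A0) w‖ + ‖(A' - A0) w‖ := by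
    have h10 : (A - A') w = (A - A0) w - (A' - A0) w := by
      simp only [_root_.sub_apply]
      abel
    rw [h10]
    exact norm_sub_le _ _
  have h10 : ‖(A' - A0) w‖ ≤ R * ‖w‖ :=
    ((A' - A0).le_opNorm w).trans (mul_le_mul_of_nonneg_right h4 hw)
  have h11 : ‖(A - A0) w‖ ≤ ‖(A - A0) w + e‖ + ‖e‖ := by
    have h12 : (A - A0) w = ((A - A0) w + e) - e := by abel
    calc ‖(A - A0) w‖ = ‖((A - A0) w + e) - e‖ := by rw [← h12]
      _ ≤ _ := norm_sub_le _ _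
  generalize ‖A - A0‖ = d at *
  generalize ‖A - A'‖ = d' at *
  generalize ‖w‖ = t at *
  generalize ‖(A - A') w‖ = a at *
  generalize ‖(A - A0) w‖ = b at *
  generalize ‖(A' - A0) w‖ = c at *
  generalize ‖(A - A0) w + e‖ = f at *
  generalize ‖e‖ = g at *
  have k1 : (d - R) * t ≤ d' * t := mul_le_mul_of_nonneg_right (by linarith) hw
  have k2 : K * a ≤ K * (f + g + R * t) := mul_le_mul_of_nonneg_left (by linarith) (by linarith)
  have k3 : K * g ≤ K * (ε * (d * t)) := mul_le_mul_of_nonneg_left he (by linarith)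
  have hd : 0 ≤ d * t := by
    have : 0 ≤ d := by nlinarith
    positivity
  have k4 : 400 * (K * ε) * (d * t) ≤ 1 * (d * t) := mul_le_mul_of_nonneg_right hKε hd
  have k5 : 40004 * K * R * t ≤ d * t := mul_le_mul_of_nonneg_right h3.le hw
  have k6 : R * t ≤ K * R * t := mul_le_mul_of_nonneg_right hKR hw
  have k7 : K * (20000 * R * t) ≤ K * f := by nlinarith
  exact le_of_mul_le_mul_left k7 (by linarith)

private theorem q_hor {l : ℕ} {K δ d : ℝ} (hK : 1 ≤ K) (hδ : 0 < δ) (hd : 133 * K ^ 2 * δ ≤ d)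
    {Di : E l →L[ℝ] E l} (hDi : ∀ v, d * ‖Di v‖ ≤ K * ‖v‖) (w v : E l) (hv : ‖v‖ ≤ δ * ‖w‖) :
    ‖d⁻¹ • v‖ ≤ ‖w - Di v‖ / 100 := by
  have hK0 : 0 < K := by linarith
  have hd0 : 0 < d := lt_of_lt_of_le (by positivity) hd
  have hK2 : 1 ≤ K ^ 2 := one_le_pow₀ hK
  have h1 := hDi v
  have h2 : 133 * ‖Di v‖ ≤ ‖w‖ := by
    have a1 : 133 * K ^ 2 * δ * ‖Di v‖ ≤ d * ‖Di v‖ := mul_le_mul_of_nonneg_right hd (norm_nonneg _)
    have a2 : K * ‖v‖ ≤ K * (δ * ‖w‖) := mul_le_mul_of_nonneg_left hv hK0.le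
    have a3 : (K * δ) * (133 * K * ‖Di v‖) ≤ (K * δ) * ‖w‖ := by
      have e1 : (K * δ) * (133 * K * ‖Di v‖) = 133 * K ^ 2 * δ * ‖Di v‖ := by ring
      have e2 : (K * δ) * ‖w‖ = K * (δ * ‖w‖) := by ring
      rw [e1, e2]
      linarith
    have a4 : 133 * K * ‖Di v‖ ≤ ‖w‖ := le_of_mul_le_mul_left a3 (by positivity)
    have a5 : 1 * ‖Di v‖ ≤ K * ‖Di v‖ := mul_le_mul_of_nonneg_right hK (norm_nonneg _)
    linarith
  have h3 : ‖w‖ - ‖Di v‖ ≤ ‖w - Di v‖ := norm_sub_norm_le _ _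
  have h4 : ‖d⁻¹ • v‖ ≤ ‖w‖ / 133 := by
    rw [norm_smul, norm_inv, Real.norm_of_nonneg hd0.le, inv_mul_le_iff₀ hd0]
    have a0 : δ ≤ d / 133 := by
      have : 1 * δ ≤ K ^ 2 * δ := mul_le_mul_of_nonneg_right hK2 hδ.le
      linarith
    have a1 : δ * ‖w‖ ≤ (d / 133) * ‖w‖ := mul_le_mul_of_nonneg_right a0 (norm_nonneg _)
    linarith
  linarith [norm_nonneg w]

private theorem q_ver {l : ℕ} {K δ d : ℝ} (hK : 1 ≤ K) (hδ : 0 < δ) (hd : 133 * K ^ 2 * δ ≤ d)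
    {Di D : E l →L[ℝ] E l} (hDi : ∀ v, d * ‖Di v‖ ≤ K * ‖v‖) (w v : E l)
    (hD : d * ‖w‖ ≤ K * ‖D w‖) (hv : ‖v‖ ≤ δ * ‖w‖) :
    ‖Di v‖ ≤ ‖d⁻¹ • (D w + v)‖ / 100 := by
  have hK0 : 0 < K := by linarith
  have hd0 : 0 < d := lt_of_lt_of_le (by positivity) hd
  have h1 : d * ‖Di v‖ ≤ K * (δ * ‖w‖) := (hDi v).trans (mul_le_mul_of_nonneg_left hv hK0.le)
  have h2 : ‖D w‖ - ‖v‖ ≤ ‖D w + v‖ := by
    have := norm_sub_norm_le (D w) (-v)
    rwa [norm_neg, sub_neg_eq_add] at this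
  have h3 : 133 * K * δ * ‖w‖ ≤ ‖D w‖ := by
    have a1 := mul_le_mul_of_nonneg_right hd (norm_nonneg w)
    have a2 : K * (133 * K * δ * ‖w‖) ≤ K * ‖D w‖ := by
      have e1 : K * (133 * K * δ * ‖w‖) = 133 * K ^ 2 * δ * ‖w‖ := by ring
      rw [e1]
      linarith
    exact le_of_mul_le_mul_left a2 hK0
  have h4 : ‖Di v‖ * 100 * d ≤ ‖D w + v‖ := by
    have a0 : 0 ≤ δ * ‖w‖ := mul_nonneg hδ.le (norm_nonneg _)
    have a1 : 1 * (δ * ‖w‖) ≤ K * (δ * ‖w‖) := mul_le_mul_of_nonneg_right hK a0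
    have e1 : 133 * K * δ * ‖w‖ = 133 * (K * (δ * ‖w‖)) := by ring
    rw [e1] at h3
    have e2 : ‖Di v‖ * 100 * d = 100 * (d * ‖Di v‖) := by ring
    rw [e2]
    linarith
  rw [norm_smul, norm_inv, Real.norm_of_nonneg hd0.le, le_div_iff₀ (by norm_num : (0 : ℝ) < 100),
    inv_mul_eq_div, le_div_iff₀ hd0]
  exact h4

theorem qe_near_far {l : ℕ} {K ε : ℝ} {ι X : Type} {Er : X → X → Prop} {inc : X → ι → Prop}
    {pt : X → W l} {B : ι → E l →L[ℝ] E l} {h : ι → X → E l} {I : Finset ι} {P : Finset X}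
    (H : QuasiE K ε Er inc pt B h I P) (i0 : ι) (hi0 : i0 ∈ I) (R : ℝ) (hR : 0 < R)
    (P' : Finset X) (hP' : P' ⊆ P) (hn : ∀ p ∈ P', ∃ i ∈ I, inc p i ∧ ‖B i - B i0‖ ≤ R) :
    SepE Er inc pt I (fun i => ‖B i - B i0‖ ≤ R) (fun i => 40004 * K * R < ‖B i - B i0‖) P' ∧
    SepE Er inc pt I (fun i => 40004 * K * R < ‖B i - B i0‖) (fun i => ‖B i - B i0‖ ≤ R) P' := by
  obtain ⟨hKe, he1⟩ := q_eps H.hK H.hε H.hKε
  have hK := H.hK
  have hc0 : (0 : ℝ) < (200 * R)⁻¹ := by positivity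
  have hnear : ∀ i ∈ I, ‖B i - B i0‖ ≤ R → ∀ p ∈ P', ∀ q ∈ P', Er p q → inc p i → inc q i →
      dist ((200 * R)⁻¹ • cb (B i0) (h i0 p) (pt p)) ((200 * R)⁻¹ • cb (B i0) (h i0 q) (pt q)) ≤
        dist (pt p).1 (pt q).1 / 100 := by
    intro i hi hiR p hp q hq hpq h1 h2
    obtain ⟨e, he, hd⟩ := q_diff H (hP' hp) (hP' hq) hpq hi hi0 h1 h2
    rw [dist_eq_norm, ← smul_sub, hd, norm_smul, Real.norm_of_nonneg hc0.le, dist_eq_norm]
    have hw := norm_nonneg ((pt p).1 - (pt q).1)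
    have h3 : ‖(B i - B i0) ((pt p).1 - (pt q).1)‖ ≤ R * ‖(pt p).1 - (pt q).1‖ :=
      ((B i - B i0).le_opNorm _).trans (mul_le_mul_of_nonneg_right hiR hw)
    have h4 : ‖e‖ ≤ R * ‖(pt p).1 - (pt q).1‖ := by
      have h5 : ‖B i - B i0‖ * ‖(pt p).1 - (pt q).1‖ ≤ R * ‖(pt p).1 - (pt q).1‖ :=
        mul_le_mul_of_nonneg_right hiR hw
      have h6 : 0 ≤ R * ‖(pt p).1 - (pt q).1‖ := by positivity
      have h7 := mul_le_mul_of_nonneg_left h5 H.hε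
      have h8 : ε * (R * ‖(pt p).1 - (pt q).1‖) ≤ 1 * (R * ‖(pt p).1 - (pt q).1‖) :=
        mul_le_mul_of_nonneg_right (by linarith [H.hε]) h6
      linarith
    have h5 := norm_add_le ((B i - B i0) ((pt p).1 - (pt q).1)) e
    calc (200 * R)⁻¹ * ‖(B i - B i0) ((pt p).1 - (pt q).1) + e‖
        ≤ (200 * R)⁻¹ * (2 * R * ‖(pt p).1 - (pt q).1‖) :=
          mul_le_mul_of_nonneg_left (by linarith) hc0.le
      _ = ‖(pt p).1 - (pt q).1‖ / 100 := by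
          field_simp
          ring
  have hfar : ∀ i ∈ I, 40004 * K * R < ‖B i - B i0‖ → ∀ p ∈ P', ∀ q ∈ P', Er p q → inc p i → inc q i →
      dist (pt p).1 (pt q).1 ≤
      dist ((200 * R)⁻¹ • cb (B i0) (h i0 p) (pt p)) ((200 * R)⁻¹ • cb (B i0) (h i0 q) (pt q)) /
        100 := by
    intro i hi hiR p hp q hq hpq h1 h2
    obtain ⟨e, he, hd⟩ := q_diff H (hP' hp) (hP' hq) hpq hi hi0 h1 h2
    obtain ⟨j, hj, hpj, hjR⟩ := hn p hp
    have hne : i ≠ j := by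
      rintro rfl
      nlinarith
    have hconf := (H.conf p (hP' hp) i hi j hj hne h1 hpj).2
    have h3 := q_low hK H.hε hKe hR hconf hiR hjR _ e he
    rw [dist_eq_norm, dist_eq_norm, ← smul_sub, hd, norm_smul, Real.norm_of_nonneg hc0.le]
    have h4 : (200 * R)⁻¹ * (20000 * R * ‖(pt p).1 - (pt q).1‖) = 100 * ‖(pt p).1 - (pt q).1‖ := by
      field_simp
      ring
    have h5 := mul_le_mul_of_nonneg_left h3 hc0.le
    linarith
  constructor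
  · refine ⟨fun p => ((pt p).1, (200 * R)⁻¹ • cb (B i0) (h i0 p) (pt p)), ?_, hnear, hfar⟩
    intro p hp q hq hpq
    rw [← q_iff H (hP' hp) (hP' hq) hpq hi0, Prod.mk.injEq]
    exact and_congr_right fun _ => (smul_right_injective _ hc0.ne').eq_iff
  · refine ⟨fun p => ((200 * R)⁻¹ • cb (B i0) (h i0 p) (pt p), (pt p).1), ?_, hfar, hnear⟩
    intro p hp q hq hpq
    rw [← q_iff H (hP' hp) (hP' hq) hpq hi0, Prod.mk.injEq, and_comm]
    exact and_congr_right fun _ => (smul_right_injective _ hc0.ne').eq_iff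

theorem qe_near_near {l : ℕ} {K ε : ℝ} {ι X : Type} {Er : X → X → Prop} {inc : X → ι → Prop}
    {pt : X → W l} {B : ι → E l →L[ℝ] E l} {h : ι → X → E l} {I : Finset ι} {P : Finset X}
    (H : QuasiE K ε Er inc pt B h I P) (Q1 Q2 : ι → Prop) (δ : ℝ) (hδ : 0 < δ)
    (h1 : ∀ i ∈ I, ∀ j ∈ I, Q1 i → Q1 j → ‖B i - B j‖ ≤ δ)
    (h2 : ∀ i ∈ I, ∀ j ∈ I, Q2 i → Q2 j → ‖B i - B j‖ ≤ δ)
    (h3 : ∀ i ∈ I, ∀ j ∈ I, Q1 i → Q2 j → 200 * K ^ 2 * δ ≤ ‖B i - B j‖)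
    (h4 : ∃ p ∈ P, ∃ i ∈ I, ∃ j ∈ I, inc p i ∧ inc p j ∧ Q1 i ∧ Q2 j) :
    SepE Er inc pt I Q1 Q2 P := by
  obtain ⟨hKe, he1⟩ := q_eps H.hK H.hε H.hKε
  have hK := H.hK
  have hK0 : 0 < K := by linarith
  obtain ⟨p0, hp0, i1, hi1, i2, hi2, hpi1, hpi2, hQ1, hQ2⟩ := h4
  obtain ⟨D, hD⟩ : ∃ D : E l →L[ℝ] E l, D = B i2 - B i1 := ⟨_, rfl⟩
  have hDn : 200 * K ^ 2 * δ ≤ ‖D‖ := by
    rw [hD, norm_sub_rev]
    exact h3 i1 hi1 i2 hi2 hQ1 hQ2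
  have hDpos : 0 < ‖D‖ := lt_of_lt_of_le (by positivity) hDn
  have hD0 : D ≠ 0 := norm_pos_iff.1 hDpos
  have hne : i2 ≠ i1 := by
    intro h
    exact hD0 (by rw [hD, h, sub_self])
  have hDc : KConf K D := by
    rw [hD]
    exact (H.conf p0 hp0 i2 hi2 i1 hi1 hne hpi2 hpi1).2
  obtain ⟨Di, _, hDi2, hDi3⟩ := kconf_inv hK0.le hDc hD0
  obtain ⟨g, hg1, hg2⟩ : ∃ g : X → W l,
      (∀ p, (g p).1 = (pt p).1 - Di (cb (B i1) (h i1 p) (pt p))) ∧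
      ∀ p, (g p).2 = ‖D‖⁻¹ • cb (B i1) (h i1 p) (pt p) :=
    ⟨fun p => ((pt p).1 - Di (cb (B i1) (h i1 p) (pt p)), ‖D‖⁻¹ • cb (B i1) (h i1 p) (pt p)),
      fun _ => rfl, fun _ => rfl⟩
  have hd1 : ∀ p q : X, (g p).1 - (g q).1 =
      ((pt p).1 - (pt q).1) - Di (cb (B i1) (h i1 p) (pt p) - cb (B i1) (h i1 q) (pt q)) := by
    intro p q
    rw [hg1, hg1, map_sub Di (cb (B i1) (h i1 p) (pt p)) (cb (B i1) (h i1 q) (pt q))]
    abel
  have hd2 : ∀ p q : X, (g p).2 - (g q).2 =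
      ‖D‖⁻¹ • (cb (B i1) (h i1 p) (pt p) - cb (B i1) (h i1 q) (pt q)) := by
    intro p q
    rw [hg2, hg2, ← smul_sub]
  -- the common error bound
  obtain ⟨δ', hδ'⟩ : ∃ δ' : ℝ, δ' = δ + ε * (‖D‖ + δ) := ⟨_, rfl⟩
  have hδ0 : 0 < δ' := by
    rw [hδ']
    have := mul_nonneg H.hε (add_nonneg hDpos.le hδ.le)
    linarith
  have hK1 : 1 ≤ K ^ 2 := one_le_pow₀ hK
  have hδd : 200 * δ ≤ ‖D‖ := by nlinarith
  have hδD : 133 * K ^ 2 * δ' ≤ ‖D‖ := by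
    have k1 : 400 * K ^ 2 * ε * (‖D‖ + δ) ≤ 1 * (‖D‖ + δ) :=
      mul_le_mul_of_nonneg_right H.hKε (by linarith)
    have k2 : 133 * K ^ 2 * δ' = 133 / 200 * (200 * K ^ 2 * δ) +
        133 / 400 * (400 * K ^ 2 * ε * (‖D‖ + δ)) := by
      rw [hδ']
      ring
    rw [k2]
    linarith
  refine ⟨g, ?_, ?_, ?_⟩
  · intro p hp q hq hpq
    rw [← q_iff H hp hq hpq hi1]
    constructor
    · intro hz
      have e2 : ‖D‖⁻¹ • (cb (B i1) (h i1 p) (pt p) - cb (B i1) (h i1 q) (pt q)) = 0 := by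
        rw [← hd2, hz, sub_self]
      have e3 : cb (B i1) (h i1 p) (pt p) - cb (B i1) (h i1 q) (pt q) = 0 :=
        (smul_eq_zero.1 e2).resolve_left (inv_ne_zero hDpos.ne')
      have e1 : ((pt p).1 - (pt q).1) -
          Di (cb (B i1) (h i1 p) (pt p) - cb (B i1) (h i1 q) (pt q)) = 0 := by
        rw [← hd1, hz, sub_self]
      rw [e3, map_zero, sub_zero] at e1
      exact ⟨sub_eq_zero.1 e1, sub_eq_zero.1 e3⟩
    · rintro ⟨e1, e2⟩
      refine Prod.ext ?_ ?_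
      · rw [hg1, hg1, e1, e2]
      · rw [hg2, hg2, e2]
  · intro i hi hQi p hp q hq hpq hpi hqi
    obtain ⟨e, he, hd⟩ := q_diff H hp hq hpq hi hi1 hpi hqi
    have hM := h1 i hi i1 hi1 hQi hQ1
    have hw := norm_nonneg ((pt p).1 - (pt q).1)
    have hv : ‖(B i - B i1) ((pt p).1 - (pt q).1) + e‖ ≤ δ' * ‖(pt p).1 - (pt q).1‖ := by
      have k1 : ‖(B i - B i1) ((pt p).1 - (pt q).1)‖ ≤ δ * ‖(pt p).1 - (pt q).1‖ :=
        (ContinuousLinearMap.le_opNorm _ _).trans (mul_le_mul_of_nonneg_right hM hw)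
      have k2 : ‖e‖ ≤ ε * ((‖D‖ + δ) * ‖(pt p).1 - (pt q).1‖) :=
        he.trans (mul_le_mul_of_nonneg_left
          (mul_le_mul_of_nonneg_right (by linarith) hw) H.hε)
      have k3 := norm_add_le ((B i - B i1) ((pt p).1 - (pt q).1)) e
      rw [hδ']
      linarith
    unfold Hor
    rw [dist_eq_norm, dist_eq_norm, hd1, hd2, hd]
    exact q_hor hK hδ0 hδD hDi3 _ _ hv
  · intro i hi hQi p hp q hq hpq hpi hqi
    obtain ⟨e, he, hd⟩ := q_diff H hp hq hpq hi hi1 hpi hqi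
    have hM := h2 i hi i2 hi2 hQi hQ2
    have hw := norm_nonneg ((pt p).1 - (pt q).1)
    have hMD : ‖B i - B i1‖ ≤ ‖D‖ + δ := by
      have k1 : B i - B i1 = D + (B i - B i2) := by
        rw [hD]
        abel
      rw [k1]
      exact (norm_add_le _ _).trans (by linarith)
    have hv : ‖(B i - B i2) ((pt p).1 - (pt q).1) + e‖ ≤ δ' * ‖(pt p).1 - (pt q).1‖ := by
      have k1 : ‖(B i - B i2) ((pt p).1 - (pt q).1)‖ ≤ δ * ‖(pt p).1 - (pt q).1‖ :=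
        (ContinuousLinearMap.le_opNorm _ _).trans (mul_le_mul_of_nonneg_right hM hw)
      have k2 : ‖e‖ ≤ ε * ((‖D‖ + δ) * ‖(pt p).1 - (pt q).1‖) :=
        he.trans (mul_le_mul_of_nonneg_left (mul_le_mul_of_nonneg_right hMD hw) H.hε)
      have k3 := norm_add_le ((B i - B i2) ((pt p).1 - (pt q).1)) e
      rw [hδ']
      linarith
    have e1 : (B i - B i1) ((pt p).1 - (pt q).1) + e = D ((pt p).1 - (pt q).1) +
        ((B i - B i2) ((pt p).1 - (pt q).1) + e) := by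
      rw [← add_assoc, hD, ← _root_.add_apply]
      congr 2
      abel
    unfold Ver
    rw [dist_eq_norm, dist_eq_norm, hd1, hd2, hd, e1]
    have e2 : (pt p).1 - (pt q).1 - Di (D ((pt p).1 - (pt q).1) +
        ((B i - B i2) ((pt p).1 - (pt q).1) + e)) =
        - Di ((B i - B i2) ((pt p).1 - (pt q).1) + e) := by
      rw [map_add Di (D ((pt p).1 - (pt q).1)), hDi2]
      abel
    rw [e2, norm_neg]
    exact q_ver hK hδ0 hδD hDi3 _ _ (kconf_norm hK0.le hDc _) hv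

theorem qe_one {l : ℕ} {K ε : ℝ} {ι X : Type} {Er : X → X → Prop} {inc : X → ι → Prop}
    {pt : X → W l} {B : ι → E l →L[ℝ] E l} {h : ι → X → E l} {I : Finset ι} {P : Finset X}
    (H : QuasiE K ε Er inc pt B h I P) {p q : X} (hp : p ∈ P) (hq : q ∈ P) (hpq : Er p q)
    {i j : ι} (hi : i ∈ I) (hj : j ∈ I) (hij : i ≠ j) (h1 : inc p i) (h2 : inc q i)
    (h3 : inc p j) (h4 : inc q j) : pt p = pt q := by
  obtain ⟨hKe, he1⟩ := q_eps H.hK H.hε H.hKε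
  have hK := H.hK
  obtain ⟨hBne, hconf⟩ := H.conf p hp i hi j hj hij h1 h3
  obtain ⟨e, he, hd⟩ := q_diff H hp hq hpq hi hj h1 h2
  have hz : ∀ r ∈ P, inc r j → cb (B j) (h j r) (pt r) = 0 := by
    intro r hr hrj
    unfold cb
    rw [H.hinc r hr j hj hrj]
    abel
  rw [hz p hp h3, hz q hq h4, sub_self] at hd
  have hn : ‖(B i - B j) ((pt p).1 - (pt q).1)‖ = ‖e‖ := by
    have k1 : (B i - B j) ((pt p).1 - (pt q).1) = -e := eq_neg_of_add_eq_zero_left hd.symm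
    rw [k1, norm_neg]
  have h5 := kconf_norm (by linarith) hconf ((pt p).1 - (pt q).1)
  rw [hn] at h5
  have hD : 0 < ‖B i - B j‖ := norm_pos_iff.2 (sub_ne_zero.2 hBne)
  have hw := norm_nonneg ((pt p).1 - (pt q).1)
  have hDw : 0 ≤ ‖B i - B j‖ * ‖(pt p).1 - (pt q).1‖ := mul_nonneg hD.le hw
  have h6 : ‖B i - B j‖ * ‖(pt p).1 - (pt q).1‖ ≤ 0 := by
    have k1 : K * ‖e‖ ≤ K * (ε * (‖B i - B j‖ * ‖(pt p).1 - (pt q).1‖)) :=
      mul_le_mul_of_nonneg_left he (by linarith)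
    have k2 : 400 * (K * ε) * (‖B i - B j‖ * ‖(pt p).1 - (pt q).1‖) ≤
        1 * (‖B i - B j‖ * ‖(pt p).1 - (pt q).1‖) := mul_le_mul_of_nonneg_right hKe hDw
    nlinarith
  have h7 : ‖(pt p).1 - (pt q).1‖ ≤ 0 := by
    by_contra hc
    push Not at hc
    have := mul_pos hD hc
    linarith
  have h8 : (pt p).1 = (pt q).1 := sub_eq_zero.1 (norm_le_zero_iff.1 h7)
  refine Prod.ext h8 ?_
  rw [H.hinc p hp i hi h1, H.hinc q hq i hi h2, h8, H.hcong i hi p hp q hq hpq h8]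

end CFS
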