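import Pool.Agent.CFS.T.TStep
import Pool.Agent.CFS.T.TBase
import Pool.Agent.CFS.SumF
import Pool.Agent.CFS.Kst

/-!
# Module CFST-Thm: all blocks and the incidence bound
-/

noncomputable section

namespace CFS

open Finset Classical

private theorem card_flt {ι : Type} (I : Finset ι) (p q : ι → Prop) (_ : DecidablePred p) (_ : DecidablePred q)
    (h : ∀ i ∈ I, p i ↔ q i) : (I.filter p).card = (I.filter q).card := by
  rw [Finset.filter_congr h]

theorem t_all {s : ℕ} (L : Fin s → ℕ) (V : Fin s → Type)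
    [∀ t, NormedAddCommGroup (V t)] [∀ t, NormedSpace ℝ (V t)] [∀ t, FiniteDimensional ℝ (V t)]
    (M w : ℝ) (hM : 0 ≤ M) (hw : 1 ≤ w) : GoodE L V M w ∅ := by
  have key : ∀ C : Finset (Fin s), GoodE L V M w (univ \ C) := by
    intro C
    induction C using Finset.induction_on with
    | empty =>
      rw [sdiff_empty]
      exact t_base L V M w
    | insert c C hc ih =>
      have e : univ \ C = insert c (univ \ insert c C) := by
        ext x
        simp only [mem_sdiff, mem_univ, true_and, mem_insert, not_or]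
        constructor
        · intro hx
          by_cases h : x = c
          · exact Or.inl h
          · exact Or.inr ⟨h, hx⟩
        · rintro (h | h)
          · rw [h]
            exact hc
          · exact h.2
      rw [e] at ih
      exact t_step L V M w hM hw _ c ih
  have h := key univ
  rwa [sdiff_self] at h

theorem t_thm {s : ℕ} (L : Fin s → ℕ) (V : Fin s → Type)
    [∀ t, NormedAddCommGroup (V t)] [∀ t, NormedSpace ℝ (V t)] [∀ t, FiniteDimensional ℝ (V t)]
    (M w : ℝ) (hM : 0 ≤ M) (hw : 1 ≤ w) : ∃ A : ℝ, 0 ≤ A ∧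
    ∀ {ι X : Type} (inc : X → ι → Prop) (pt : X → (t : Fin s) → W (L t))
      (a : (t : Fin s) → ι → V t) (I : Finset ι) (P : Finset X),
      FamE L V M w inc pt a I P →
      ((∑ p ∈ P, (I.filter (fun i => inc p i)).card : ℕ) : ℝ) ≤
        A * ((P.card : ℝ) ^ (2 / 3 : ℝ) * (I.card : ℝ) ^ (2 / 3 : ℝ) + P.card + I.card) := by
  obtain ⟨A, hA1, hA⟩ := t_all L V M w hM hw
  have hA0 : 0 ≤ A := le_trans zero_le_one hA1
  obtain ⟨A', hA'0, hA'⟩ := sum_final 2 le_rfl (A + 2) 2
  refine ⟨A', hA'0, ?_⟩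
  intro ι X inc pt a I P hfam
  have h1 : ∀ t : ℝ, 2 ≤ t → 0 < t →
      ((P.filter (fun p => t ≤ (((I.filter (fun i => inc p i)).card : ℕ) : ℝ))).card : ℝ) ≤
        (A + 2) * ((I.card : ℝ) ^ 2 / t ^ ((2 * ((2 : ℕ) : ℝ) - 1 : ℝ) / (((2 : ℕ) : ℝ) - 1)) +
          I.card / t) := by
    intro t ht ht0
    have e : (2 * ((2 : ℕ) : ℝ) - 1) / (((2 : ℕ) : ℝ) - 1) = ((3 : ℕ) : ℝ) := by norm_num
    rw [e, Real.rpow_natCast]
    refine (hA inc pt a I (P.filter (fun p => t ≤ (((I.filter (fun i => inc p i)).card : ℕ) : ℝ)))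
      (fun _ => True) (fun _ => True) t
      (famE_mono hfam (Finset.Subset.refl I) (filter_subset _ _))
      (fun u hu => absurd hu (notMem_empty u)) ht
      (fun p hp => ((mem_filter.1 hp).2).trans_eq (Nat.cast_inj.2 (card_flt I _ _ _ _
        fun i _ => (and_iff_left trivial).symm)))
      (fun p hp => ((mem_filter.1 hp).2).trans_eq (Nat.cast_inj.2 (card_flt I _ _ _ _
        fun i _ => (and_iff_left trivial).symm)))).trans ?_
    have hX : 0 ≤ (I.card : ℝ) ^ 2 / t ^ 3 := by positivity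
    have hY : 0 ≤ (I.card : ℝ) / t := by positivity
    nlinarith
  have h2 : ∀ P' : Finset X, P' ⊆ P →
      ((∑ p ∈ P', (I.filter (fun i => inc p i)).card : ℕ) : ℝ) ≤
        (A + 2) * ((I.card : ℝ) + (P'.card : ℝ) ^ 2) := by
    intro P' hP'
    have h3 := kst I P' (fun i => {p | inc p i}) 2 1 (by norm_num) (by
      intro T hT hT2
      rw [card_eq_two] at hT2
      obtain ⟨p, q, hpq, rfl⟩ := hT2
      rw [card_le_one]
      intro f hf g hg
      rw [mem_filter] at hf hg
      have hp : p ∈ P' := hT (mem_insert_self _ _)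
      have hq : q ∈ P' := hT (mem_insert_of_mem (mem_singleton_self _))
      exact hfam.one p (hP' hp) q (hP' hq) hpq f hf.1 g hg.1
        (hf.2 p (mem_insert_self _ _)) (hf.2 q (mem_insert_of_mem (mem_singleton_self _)))
        (hg.2 p (mem_insert_self _ _)) (hg.2 q (mem_insert_of_mem (mem_singleton_self _))))
    have h4 : ∑ p ∈ P', (I.filter (fun i => inc p i)).card ≤ I.card + P'.card ^ 2 := by
      refine h3.trans ?_
      have h5 : (I.filter (fun i => ∃ p ∈ P', p ∈ {p | inc p i})).card ≤ I.card :=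
        card_le_card (filter_subset _ _)
      omega
    have h6 : ((∑ p ∈ P', (I.filter (fun i => inc p i)).card : ℕ) : ℝ) ≤
        (I.card : ℝ) + (P'.card : ℝ) ^ 2 := by exact_mod_cast h4
    refine h6.trans ?_
    have hZ : 0 ≤ (I.card : ℝ) + (P'.card : ℝ) ^ 2 := by positivity
    nlinarith [mul_nonneg hA0 hZ]
  have h := hA' P (fun p => (I.filter (fun i => inc p i)).card) I.card h1 h2
  have e1 : ((2 : ℕ) : ℝ) / (2 * ((2 : ℕ) : ℝ) - 1) = 2 / 3 := by norm_num
  have e2 : (2 * ((2 : ℕ) : ℝ) - 2) / (2 * ((2 : ℕ) : ℝ) - 1) = 2 / 3 := by norm_num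
  rw [e1, e2] at h
  exact h

end CFS
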