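import Pool.Agent.CFS.T.TOne
import Pool.Agent.CFS.T.TThm

/-!
# Module CFST-QThm: quasi-linear triangular families, sup norm
-/

noncomputable section

namespace CFS

open Finset Classical

theorem tq_thm {s : ℕ} (L : Fin s → ℕ) (K ε : ℝ) (hK : 1 ≤ K) (hε : 0 ≤ ε)
    (hKε : 400 * K ^ 2 * ε ≤ 1) : ∃ A : ℝ, 0 ≤ A ∧
    ∀ {ι X : Type} (inc : X → ι → Prop) (pt : X → (t : Fin s) → W (L t))
      (B : ι → (t : Fin s) → (E (L t) →L[ℝ] E (L t))) (h : ι → (t : Fin s) → X → E (L t))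
      (I : Finset ι) (P : Finset X),
      (∀ p ∈ P, ∀ q ∈ P, (∀ t, pt p t = pt q t) → p = q) →
      (∀ t, QuasiE K ε (Lo pt t) inc (fun p => pt p t) (fun i => B i t) (fun i => h i t) I P) →
      ((∑ p ∈ P, (I.filter (fun i => inc p i)).card : ℕ) : ℝ) ≤
        A * ((P.card : ℝ) ^ (2 / 3 : ℝ) * (I.card : ℝ) ^ (2 / 3 : ℝ) + P.card + I.card) := by
  obtain ⟨A, hA, h⟩ := t_thm L (fun t => E (L t) →L[ℝ] E (L t)) (200 * K ^ 2) (40004 * K)
    (by positivity) (by linarith)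
  refine ⟨A, hA, ?_⟩
  intro ι X inc pt B h' I P hinj H
  refine h inc pt (fun t i => B i t) I P ⟨hinj, ?_, ?_, ?_, ?_⟩
  · intro p hp q hq hpq i hi j hj h1 h2 h3 h4
    by_contra hij
    refine hpq (hinj p hp q hq fun t => ?_)
    induction t using WellFoundedLT.induction with
    | ind t ih =>
      have h5 : Lo pt t p q := fun u hu => ih u hu
      exact qe_one (H t) hp hq h5 hi hj hij h1 h2 h3 h4
  · intro t p hp i hi j hj hij h1 h2
    exact ((H t).conf p hp i hi j hj hij h1 h2).1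
  · intro t i0 hi0 R hR P' hP' hn
    exact qe_near_far (H t) i0 hi0 R hR P' hP' hn
  · intro t Q1 Q2 δ hδ h1 h2 h3 h4
    exact qe_near_near (H t) Q1 Q2 δ hδ h1 h2 h3 h4

end CFS
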